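import Pool.Agent.H88.Gh2

open Pool.Agent.H88.Gh in
theorem Pool.Agent.Results.MP_9991fb_an.Yes.result :
    ∃ (X : Type) (_ : NormedAddCommGroup X) (_ : NormedSpace ℝ X), CompleteSpace X ∧ UD X ∧
      ¬ Hom X :=
  ⟨XX, inferInstance, inferInstance, (Submodule.isClosed_topologicalClosure _).completeSpace_coe,
    ud, not_hom⟩
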